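import Mathlib
import Pool.Agent.TH350.RC.WZ

/-!
# Minimal relations between polynomials `X^e (X+1)^g Q` in characteristic `p` (helper202)

In a minimal relation between the polynomials `X^(e t) (X+1)^(g t) Q t` of degree `< p` one has
`e t₂ + g t₂ ≤ e t₀ + g t₁ + ∑_{t ≠ t₂} deg (Q t) + (n-1)(n-2)/2` for all members `t₀, t₁, t₂`.
-/

set_option autoImplicit false

namespace Run7.h202.RB

open Polynomial Finset Pool.Agent.TH350.WZ

variable {F : Type*} [Field F] {ι : Type*}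

/-- the factors: `dl^[i] (ph s * Q) = ph s * Gq s Q i` -/
noncomputable def Gq (s : ℕ × ℕ) (Q : F[X]) : ℕ → F[X]
  | 0 => Q
  | (i + 1) => dl (Gq s Q i) + (C (s.1 : F) * (X + 1) + C (s.2 : F) * X) * Gq s Q i

lemma dl_iter_phQ (s : ℕ × ℕ) (Q : F[X]) (i : ℕ) : dl^[i] (ph s * Q : F[X]) = ph s * Gq s Q i := by
  induction i with
  | zero => simp [Gq]
  | succ i ih =>
    rw [Function.iterate_succ_apply', ih, dl_mul, dl_ph, Gq]; ring

lemma natDegree_Gq (s : ℕ × ℕ) (Q : F[X]) (q : ℕ) (hQ : Q.natDegree ≤ q) (i : ℕ) :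
    (Gq s Q i : F[X]).natDegree ≤ q + i := by
  induction i with
  | zero => simpa [Gq] using hQ
  | succ i ih =>
    rw [Gq]
    refine (natDegree_add_le _ _).trans (max_le ((natDegree_dl _ _ ih).trans (by omega)) ?_)
    have h2 : (C (s.1 : F) * (X + 1) + C (s.2 : F) * X : F[X]).natDegree ≤ 1 := by compute_degree
    have h3 := natDegree_mul_le (p := (C (s.1 : F) * (X + 1) + C (s.2 : F) * X : F[X])) (q := Gq s Q i)
    omega

lemma natDegree_detGq (N : ℕ) (s : Fin N → ℕ × ℕ) (Q : Fin N → F[X]) (q : Fin N → ℕ)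
    (hQ : ∀ j, (Q j).natDegree ≤ q j) :
    2 * (Matrix.of fun i j : Fin N => (Gq (s j) (Q j) (i : ℕ) : F[X])).det.natDegree ≤
      2 * ∑ j, q j + N * (N - 1) := by
  have h : (Matrix.of fun i j : Fin N => (Gq (s j) (Q j) (i : ℕ) : F[X])).det.natDegree ≤
      ∑ j, q j + ∑ i : Fin N, (i : ℕ) := by
    rw [Matrix.det_apply]
    refine natDegree_sum_le_of_forall_le _ _ (fun σ _ => ?_)
    have h1 : (Equiv.Perm.sign σ • ∏ i : Fin N, (Matrix.of fun i j : Fin N =>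
        (Gq (s j) (Q j) (i : ℕ) : F[X])) (σ i) i).natDegree ≤
        (∏ i : Fin N, (Gq (s i) (Q i) (σ i : ℕ) : F[X])).natDegree := by
      rcases Int.units_eq_one_or (Equiv.Perm.sign σ) with h | h
      · rw [h]; simp
      · rw [h]; simp
    refine h1.trans ((natDegree_prod_le _ _).trans ?_)
    calc ∑ i : Fin N, (Gq (s i) (Q i) (σ i : ℕ) : F[X]).natDegree ≤ ∑ i : Fin N, (q i + (σ i : ℕ)) :=
          Finset.sum_le_sum (fun i _ => natDegree_Gq _ _ _ (hQ i) _)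
      _ = ∑ j, q j + ∑ i : Fin N, (σ i : ℕ) := Finset.sum_add_distrib
      _ = ∑ j, q j + ∑ i : Fin N, (i : ℕ) := by
          rw [Equiv.sum_comp σ (fun i : Fin N => (i : ℕ))]
  have h2 : ∑ i : Fin N, (i : ℕ) = ∑ i ∈ range N, i := Fin.sum_univ_eq_sum_range (fun i => i) N
  have h3 := Finset.sum_range_id_mul_two N
  rw [h2] at h
  omega

/-- A nontrivial relation contains a minimal one. -/
theorem exists_circ [DecidableEq ι] (T : Finset ι) (f : ι → F[X]) (g : ι → F)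
    (hg : ∑ t ∈ T, C (g t) * f t = 0) (hne : ∃ t ∈ T, g t ≠ 0) :
    ∃ U ⊆ T, ∃ g' : ι → F, U.Nonempty ∧ (∀ t ∈ U, g' t ≠ 0) ∧
      ∑ t ∈ U, C (g' t) * f t = 0 ∧
      ∀ t₀ ∈ U, ∀ h : ι → F, ∑ t ∈ U.erase t₀, C (h t) * f t = 0 →
        ∀ t ∈ U.erase t₀, h t = 0 := by
  classical
  have hex : ∃ n : ℕ, ∃ U ⊆ T, ∃ g' : ι → F, U.Nonempty ∧ (∀ t ∈ U, g' t ≠ 0) ∧
      ∑ t ∈ U, C (g' t) * f t = 0 ∧ U.card = n := by
    refine ⟨_, T.filter (fun t => g t ≠ 0), filter_subset _ _, g, ?_, ?_, ?_, rfl⟩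
    · obtain ⟨t, ht, h⟩ := hne
      exact ⟨t, mem_filter.2 ⟨ht, h⟩⟩
    · intro t ht
      exact (mem_filter.1 ht).2
    · rw [← hg, sum_filter]
      refine sum_congr rfl fun t _ => ?_
      by_cases h : g t = 0
      · simp [h]
      · simp [h]
  obtain ⟨U, hUT, g', hUne, hg0, hsum, hcard⟩ := Nat.find_spec hex
  refine ⟨U, hUT, g', hUne, hg0, hsum, ?_⟩
  intro t₀ ht₀ h hf t ht
  by_contra hft
  have hlt : ((U.erase t₀).filter (fun t => h t ≠ 0)).card < Nat.find hex := by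
    rw [← hcard]
    refine lt_of_le_of_lt (card_le_card (filter_subset _ _)) ?_
    exact card_erase_lt_of_mem ht₀
  refine Nat.find_min hex hlt ⟨(U.erase t₀).filter (fun t => h t ≠ 0), ?_, h, ⟨t, mem_filter.2 ⟨ht, hft⟩⟩,
    fun t ht => (mem_filter.1 ht).2, ?_, rfl⟩
  · exact (filter_subset _ _).trans ((erase_subset _ _).trans hUT)
  · rw [← hf, sum_filter]
    refine sum_congr rfl fun t _ => ?_
    by_cases h' : h t = 0
    · simp [h']
    · simp [h']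

theorem circ_wronsk [DecidableEq ι] (p : ℕ) [Fact p.Prime] [CharP F p] (U : Finset ι)
    (s : ι → ℕ × ℕ) (Q : ι → F[X]) (q : ι → ℕ) (hQ : ∀ t ∈ U, (Q t).natDegree ≤ q t)
    (hU : ∀ t ∈ U, (s t).1 + (s t).2 + q t < p) (g : ι → F) (hg0 : ∀ t ∈ U, g t ≠ 0)
    (hg : ∑ t ∈ U, C (g t) * (ph (s t) * Q t) = 0)
    (hind : ∀ t₀ ∈ U, ∀ f : ι → F, ∑ t ∈ U.erase t₀, C (f t) * (ph (s t) * Q t) = 0 →
        ∀ t ∈ U.erase t₀, f t = 0) (t₀ : ι) (h₀ : t₀ ∈ U) :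
    ∃ D : F[X], D ≠ 0 ∧
      2 * D.natDegree ≤ 2 * ∑ t ∈ U.erase t₀, q t + (U.card - 1) * (U.card - 2) ∧
      ∀ t₁ ∈ U, t₁ ≠ t₀ → ∃ D' : F[X], D * ph (s t₁) = D' * ph (s t₀) := by
  classical
  obtain ⟨N, hN⟩ : ∃ N, N = (U.erase t₀).card := ⟨_, rfl⟩
  have hN' : N = U.card - 1 := by rw [hN, card_erase_of_mem h₀]
  let en : Fin N ≃ (U.erase t₀) := ((U.erase t₀).equivFinOfCardEq hN.symm).symm
  let v : Fin N → ι := fun j => ((en j : (U.erase t₀)) : ι)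
  have hv : ∀ j, v j ∈ U.erase t₀ := fun j => (en j).2
  have hsum : ∀ φ : ι → F[X], ∑ t ∈ U.erase t₀, φ t = ∑ j, φ (v j) := by
    intro φ
    rw [← Finset.sum_coe_sort]
    exact (Equiv.sum_comp en (fun x : (U.erase t₀) => φ x)).symm
  have hsumN : ∑ t ∈ U.erase t₀, q t = ∑ j, q (v j) := by
    rw [← Finset.sum_coe_sort]
    exact (Equiv.sum_comp en (fun x : (U.erase t₀) => q x)).symm
  have hli : LinearIndependent F (fun j => (ph (s (v j)) * Q (v j) : F[X])) := by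
    rw [Fintype.linearIndependent_iff]
    intro c hc j
    let f : ι → F := fun t => if h : t ∈ U.erase t₀ then c (en.symm ⟨t, h⟩) else 0
    have hf : ∀ j, f (v j) = c j := by
      intro j
      have : f (v j) = c (en.symm ⟨v j, hv j⟩) := dif_pos (hv j)
      rw [this]
      congr 1
      exact en.symm_apply_apply j
    rw [← hf j]
    refine hind t₀ h₀ f ?_ _ (hv j)
    rw [hsum, ← hc]
    refine sum_congr rfl fun j _ => ?_
    rw [hf, Polynomial.smul_eq_C_mul]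
  set G : Matrix (Fin N) (Fin N) F[X] :=
    Matrix.of fun i j : Fin N => (Gq (s (v j)) (Q (v j)) (i : ℕ) : F[X]) with hG
  have hphd : ∀ j, (ph (s (v j)) * Q (v j) : F[X]).natDegree < p := by
    intro j
    unfold ph
    have h1 := natDegree_mul_le (p := (X ^ (s (v j)).1 : F[X])) (q := (X + 1) ^ (s (v j)).2)
    have h2 : (X ^ (s (v j)).1 : F[X]).natDegree ≤ (s (v j)).1 := natDegree_X_pow_le _
    have h3 : ((X + 1) ^ (s (v j)).2 : F[X]).natDegree ≤ (s (v j)).2 := by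
      refine natDegree_pow_le.trans ?_
      have : (X + 1 : F[X]).natDegree ≤ 1 := by compute_degree
      nlinarith
    have h4 := natDegree_mul_le (p := (X ^ (s (v j)).1 * (X + 1) ^ (s (v j)).2 : F[X])) (q := Q (v j))
    have h5 := hQ _ (mem_of_mem_erase (hv j))
    have := hU _ (mem_of_mem_erase (hv j))
    omega
  have hdet : G.det ≠ 0 := by
    intro h0
    obtain ⟨u, hu0, hu⟩ := Matrix.exists_vecMul_eq_zero_iff.2 h0
    apply hu0
    refine nonvanish p N _ hli hphd u (fun j => ?_)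
    have h1 := congrFun hu j
    simp only [Matrix.vecMul, dotProduct, Pi.zero_apply, hG, Matrix.of_apply] at h1
    have h2 : ∑ i : Fin N, u i * dl^[(i : ℕ)] (ph (s (v j)) * Q (v j) : F[X]) =
        ph (s (v j)) * ∑ i : Fin N, u i * Gq (s (v j)) (Q (v j)) (i : ℕ) := by
      rw [Finset.mul_sum]
      refine Finset.sum_congr rfl (fun i _ => ?_)
      rw [dl_iter_phQ]; ring
    rw [h2, h1, mul_zero]
  refine ⟨G.det, hdet, ?_, ?_⟩
  · have hd1 := natDegree_detGq (F := F) N (fun j => s (v j)) (fun j => Q (v j)) (fun j => q (v j))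
      (fun j => hQ _ (mem_of_mem_erase (hv j)))
    rw [← hG] at hd1
    rw [hsumN]
    have hNN : N * (N - 1) = (U.card - 1) * (U.card - 2) := by
      rw [hN']; congr 1
    rw [hNN] at hd1
    exact hd1
  intro t₁ h₁ hne
  obtain ⟨j₁, hj₁⟩ : ∃ j₁, v j₁ = t₁ := by
    refine ⟨en.symm ⟨t₁, mem_erase.2 ⟨hne, h₁⟩⟩, ?_⟩
    simp [v]
  set f : F[X] := ∑ j, C (g (v j)) * (ph (s (v j)) * Q (v j) : F[X]) with hf
  have hf0 : f = C (- g t₀) * (ph (s t₀) * Q t₀) := by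
    have h2 := Finset.add_sum_erase U (fun t => C (g t) * (ph (s t) * Q t : F[X])) h₀
    rw [hg, hsum] at h2
    rw [hf, C_neg]
    linear_combination h2
  have hGm : G.mulVec (fun j => C (g (v j)) * ph (s (v j))) = fun i : Fin N => dl^[(i : ℕ)] f := by
    funext i
    rw [hf, dl_iter_sum]
    simp only [Matrix.mulVec, dotProduct, hG, Matrix.of_apply]
    refine Finset.sum_congr rfl (fun j _ => ?_)
    rw [dl_iter_C_mul, dl_iter_phQ]; ring
  have hb : (fun i : Fin N => dl^[(i : ℕ)] f) =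
      (C (- g t₀) * ph (s t₀)) • (fun i : Fin N => Gq (s t₀) (Q t₀) (i : ℕ)) := by
    funext i
    rw [hf0, dl_iter_C_mul, dl_iter_phQ]
    simp only [Pi.smul_apply, smul_eq_mul]
    ring
  have hcr : G.det • (fun j => C (g (v j)) * ph (s (v j))) = G.cramer (fun i : Fin N => dl^[(i : ℕ)] f) := by
    rw [Matrix.cramer_eq_adjugate_mulVec, ← hGm, Matrix.mulVec_mulVec, Matrix.adjugate_mul,
      Matrix.smul_mulVec, Matrix.one_mulVec]
  have h1 := congrFun hcr j₁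
  rw [hb, Matrix.cramer_apply, Matrix.det_updateCol_smul] at h1
  set D'' := (G.updateCol j₁ (fun i : Fin N => Gq (s t₀) (Q t₀) (i : ℕ))).det with hD''
  simp only [Pi.smul_apply, smul_eq_mul, hj₁] at h1
  refine ⟨C ((g t₁)⁻¹) * (C (- g t₀) * D''), ?_⟩
  have hC : C ((g t₁)⁻¹) * C (g t₁) = (1 : F[X]) := by
    rw [← C_mul, inv_mul_cancel₀ (hg0 t₁ h₁), C_1]
  calc G.det * ph (s t₁) = (C ((g t₁)⁻¹) * C (g t₁)) * (G.det * ph (s t₁)) := by rw [hC, one_mul]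
    _ = C ((g t₁)⁻¹) * (G.det * (C (g t₁) * ph (s t₁))) := by ring
    _ = C ((g t₁)⁻¹) * (C (- g t₀) * ph (s t₀) * D'') := by rw [h1]
    _ = _ := by ring

lemma coprime_X_X1 (m n : ℕ) : IsCoprime ((X : F[X]) ^ m) ((X + 1) ^ n) := by
  refine IsCoprime.pow ?_
  exact ⟨-1, 1, by ring⟩

/-- the inequality for the members of a minimal relation -/
theorem circ_ineq [DecidableEq ι] (p : ℕ) [Fact p.Prime] [CharP F p] (U : Finset ι)
    (s : ι → ℕ × ℕ) (Q : ι → F[X]) (q : ι → ℕ) (hQ : ∀ t ∈ U, (Q t).natDegree ≤ q t)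
    (hU : ∀ t ∈ U, (s t).1 + (s t).2 + q t < p) (g : ι → F) (hg0 : ∀ t ∈ U, g t ≠ 0)
    (hg : ∑ t ∈ U, C (g t) * (ph (s t) * Q t) = 0)
    (hind : ∀ t₀ ∈ U, ∀ f : ι → F, ∑ t ∈ U.erase t₀, C (f t) * (ph (s t) * Q t) = 0 →
        ∀ t ∈ U.erase t₀, f t = 0) (t₀ t₁ t₂ : ι) (h₀ : t₀ ∈ U) (h₁ : t₁ ∈ U) (h₂ : t₂ ∈ U) :
    2 * ((s t₂).1 + (s t₂).2) ≤ 2 * ((s t₀).1 + (s t₁).2) + 2 * ∑ t ∈ U.erase t₂, q t +
      (U.card - 1) * (U.card - 2) := by
  obtain ⟨D, hD0, hDd, hD⟩ := circ_wronsk p U s Q q hQ hU g hg0 hg hind t₂ h₂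
  have hX : (X : F[X]) ^ ((s t₂).1 - (s t₀).1) ∣ D := by
    rcases eq_or_ne t₀ t₂ with rfl | hne
    · simp
    rcases Nat.le_total (s t₂).1 (s t₀).1 with h | h
    · rw [Nat.sub_eq_zero_of_le h, pow_zero]; exact one_dvd _
    obtain ⟨D', hD'⟩ := hD t₀ h₀ hne
    have h3 : (X : F[X]) ^ (s t₂).1 ∣ (D * X ^ (s t₀).1) * (X + 1) ^ (s t₀).2 := by
      refine ⟨D' * (X + 1) ^ (s t₂).2, ?_⟩
      have : D * ph (s t₀) = (D * X ^ (s t₀).1) * (X + 1) ^ (s t₀).2 := by unfold ph; ring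
      rw [← this, hD']
      unfold ph; ring
    have h4 := (coprime_X_X1 (F := F) (s t₂).1 (s t₀).2).dvd_of_dvd_mul_right h3
    have h5 : (X : F[X]) ^ (s t₂).1 = X ^ ((s t₂).1 - (s t₀).1) * X ^ (s t₀).1 := by
      rw [← pow_add]; congr 1; omega
    rw [h5] at h4
    exact (mul_dvd_mul_iff_right (pow_ne_zero _ X_ne_zero)).1 h4
  have hX10 : (X + 1 : F[X]) ≠ 0 := by
    have := X_add_C_ne_zero (R := F) 1
    rwa [C_1] at this
  have hX1 : (X + 1 : F[X]) ^ ((s t₂).2 - (s t₁).2) ∣ D := by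
    rcases eq_or_ne t₁ t₂ with rfl | hne
    · simp
    rcases Nat.le_total (s t₂).2 (s t₁).2 with h | h
    · rw [Nat.sub_eq_zero_of_le h, pow_zero]; exact one_dvd _
    obtain ⟨D', hD'⟩ := hD t₁ h₁ hne
    have h3 : (X + 1 : F[X]) ^ (s t₂).2 ∣ (D * (X + 1) ^ (s t₁).2) * X ^ (s t₁).1 := by
      refine ⟨D' * X ^ (s t₂).1, ?_⟩
      have : D * ph (s t₁) = (D * (X + 1) ^ (s t₁).2) * X ^ (s t₁).1 := by unfold ph; ring
      rw [← this, hD']
      unfold ph; ring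
    have h4 := (coprime_X_X1 (F := F) (s t₁).1 (s t₂).2).symm.dvd_of_dvd_mul_right h3
    have h5 : (X + 1 : F[X]) ^ (s t₂).2 = (X + 1) ^ ((s t₂).2 - (s t₁).2) * (X + 1) ^ (s t₁).2 := by
      rw [← pow_add]; congr 1; omega
    rw [h5] at h4
    exact (mul_dvd_mul_iff_right (pow_ne_zero _ hX10)).1 h4
  have h6 : (X : F[X]) ^ ((s t₂).1 - (s t₀).1) * (X + 1) ^ ((s t₂).2 - (s t₁).2) ∣ D :=
    (coprime_X_X1 _ _).mul_dvd hX hX1
  have h7 := natDegree_le_of_dvd h6 hD0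
  have h8 : ((X : F[X]) ^ ((s t₂).1 - (s t₀).1) * (X + 1) ^ ((s t₂).2 - (s t₁).2)).natDegree =
      ((s t₂).1 - (s t₀).1) + ((s t₂).2 - (s t₁).2) := by
    rw [natDegree_mul (pow_ne_zero _ X_ne_zero) (pow_ne_zero _ hX10), natDegree_pow, natDegree_pow,
      natDegree_X]
    have : (X + 1 : F[X]).natDegree = 1 := by
      have := natDegree_X_add_C (R := F) 1
      rwa [C_1] at this
    rw [this]; ring
  omega

end Run7.h202.RB
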