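import Mathlib
import Pool.Agent.Run7.h202.RB.Circ
import Pool.Agent.TH350.RC.SumReg

/-!
# The pieces of the addition theorem (helper202)
-/

set_option autoImplicit false

namespace Run7.h202.RB

open Polynomial Finset Pool.Agent.TH350.WZ

variable {F : Type*} [Field F]

/-- first kind of term -/
noncomputable def al (i : ℕ) : F[X] := (X + 1) * X ^ (2 * i)
/-- second kind of term -/
noncomputable def be (i : ℕ) : F[X] := X * (X + 1) ^ (2 * i)
/-- third kind of term -/
noncomputable def ga (N i : ℕ) : F[X] := (X + 1) ^ (2 * i) * X ^ (2 * (N - i))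

lemma X1_monic : (X + 1 : F[X]).Monic := by
  have := monic_X_add_C (1 : F)
  rwa [C_1] at this

lemma X1_deg : (X + 1 : F[X]).natDegree = 1 := by
  have := natDegree_X_add_C (R := F) 1
  rwa [C_1] at this

lemma X1_pow_deg (n : ℕ) : ((X + 1 : F[X]) ^ n).natDegree = n := by
  rw [natDegree_pow, X1_deg, mul_one]

lemma deg_A (i : ℕ) : (be i - al i : F[X]).natDegree ≤ 2 * i := by
  have h1 : (be i : F[X]).natDegree = 2 * i + 1 := by
    unfold be
    rw [natDegree_mul X_ne_zero (pow_ne_zero _ X1_monic.ne_zero), natDegree_X, X1_pow_deg]; ring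
  have h2 : (al i : F[X]).natDegree = 2 * i + 1 := by
    unfold al
    rw [natDegree_mul X1_monic.ne_zero (pow_ne_zero _ X_ne_zero), natDegree_X_pow, X1_deg]; ring
  have m1 : (be i : F[X]).Monic := monic_X.mul (X1_monic.pow _)
  have m2 : (al i : F[X]).Monic := X1_monic.mul (monic_X.pow _)
  have h3 : (be i : F[X]).degree = (al i : F[X]).degree := by
    rw [degree_eq_natDegree m1.ne_zero, degree_eq_natDegree m2.ne_zero, h1, h2]
  have h4 := degree_sub_lt h3 m1.ne_zero (by rw [m1.leadingCoeff, m2.leadingCoeff])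
  rcases eq_or_ne (be i - al i : F[X]) 0 with h0 | h0
  · rw [h0]; simp
  rw [degree_eq_natDegree h0, degree_eq_natDegree m1.ne_zero, h1] at h4
  have h5 : (be i - al i : F[X]).natDegree < 2 * i + 1 := by exact_mod_cast h4
  omega

lemma deg_pow_sub (i : ℕ) : ((X + 1) ^ (2 * i) - (X + 1) : F[X]).natDegree ≤ max (2 * i) 1 := by
  refine (natDegree_sub_le _ _).trans (max_le_max (X1_pow_deg _).le X1_deg.le)

lemma term_B (N a i : ℕ) (hi : i ≤ a) (ha : a ≤ N) :
    ∃ Q : F[X], ga N i - al (N - i) = X ^ (2 * (N - a) + 1) * Q ∧ Q.natDegree ≤ 2 * a := by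
  have h1 : (X : F[X]) ∣ (X + 1) ^ (2 * i) - (X + 1) := by
    rw [X_dvd_iff, coeff_zero_eq_eval_zero]
    simp
  obtain ⟨R, hR⟩ := h1
  refine ⟨X ^ (2 * (a - i)) * R, ?_, ?_⟩
  · have e1 : (X : F[X]) ^ (2 * (N - i)) = X ^ (2 * (N - a)) * X ^ (2 * (a - i)) := by
      rw [← pow_add]; congr 1; omega
    have e2 : ga N i - al (N - i) = (X : F[X]) ^ (2 * (N - i)) * ((X + 1) ^ (2 * i) - (X + 1)) := by
      unfold ga al; ring
    rw [e2, e1, hR]; ring
  · rcases eq_or_ne R 0 with rfl | hR0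
    · simp
    have h2 := deg_pow_sub (F := F) i
    rw [hR, natDegree_mul X_ne_zero hR0, natDegree_X] at h2
    rw [natDegree_mul (pow_ne_zero _ X_ne_zero) hR0, natDegree_X_pow]
    rcases Nat.eq_zero_or_pos i with rfl | h
    · simp at h2 ⊢; omega
    · have : max (2 * i) 1 = 2 * i := by omega
      omega

lemma term_C (N a i : ℕ) (hi : i ≤ a) (ha : a ≤ N) :
    ∃ Q : F[X], be (N - i) + ga N (N - i) = (X + 1) ^ (2 * (N - a) + 1) * Q ∧ Q.natDegree ≤ 2 * a := by
  have h1 : (X + 1 : F[X]) ∣ X ^ (2 * i) + X := by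
    have h2 : (X - C (-1) : F[X]) ∣ X ^ (2 * i) + X := by
      rw [dvd_iff_isRoot, IsRoot, eval_add, eval_pow, eval_X]
      rw [pow_mul]
      norm_num
    have e : (X - C (-1) : F[X]) = X + 1 := by rw [C_neg, C_1]; ring
    rwa [e] at h2
  obtain ⟨R, hR⟩ := h1
  refine ⟨(X + 1) ^ (2 * (a - i)) * R, ?_, ?_⟩
  · have e1 : (X + 1 : F[X]) ^ (2 * (N - i)) = (X + 1) ^ (2 * (N - a)) * (X + 1) ^ (2 * (a - i)) := by
      rw [← pow_add]; congr 1; omega
    have e3 : N - (N - i) = i := by omega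
    have e2 : be (N - i) + ga N (N - i) = (X + 1 : F[X]) ^ (2 * (N - i)) * (X ^ (2 * i) + X) := by
      unfold be ga; rw [e3]; ring
    rw [e2, e1, hR]; ring
  · rcases eq_or_ne R 0 with rfl | hR0
    · simp
    have h2 : (X ^ (2 * i) + X : F[X]).natDegree ≤ max (2 * i) 1 :=
      (natDegree_add_le _ _).trans (max_le_max (natDegree_X_pow_le _) natDegree_X_le)
    rw [hR, natDegree_mul X1_monic.ne_zero hR0, X1_deg] at h2
    rw [natDegree_mul (pow_ne_zero _ X1_monic.ne_zero) hR0, X1_pow_deg]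
    rcases Nat.eq_zero_or_pos i with rfl | h
    · simp at h2 ⊢; omega
    · have : max (2 * i) 1 = 2 * i := by omega
      omega

/-- sums of multiples of one polynomial -/
lemma sum_mult {ι : Type*} (S : Finset ι) (w : ι → F) (φ : ι → F[X]) (D : F[X]) (n : ℕ)
    (h : ∀ i ∈ S, ∃ Q : F[X], φ i = D * Q ∧ Q.natDegree ≤ n) :
    ∃ Q : F[X], ∑ i ∈ S, C (w i) * φ i = D * Q ∧ Q.natDegree ≤ n := by
  classical
  have h' : ∀ i : ι, ∃ Q : F[X], i ∈ S → (φ i = D * Q ∧ Q.natDegree ≤ n) := by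
    intro i
    by_cases hi : i ∈ S
    · obtain ⟨Q, hQ⟩ := h i hi
      exact ⟨Q, fun _ => hQ⟩
    · exact ⟨0, fun h => absurd h hi⟩
  choose Q hQ using h'
  refine ⟨∑ i ∈ S, C (w i) * Q i, ?_, ?_⟩
  · rw [mul_sum]
    refine sum_congr rfl fun i hi => ?_
    rw [(hQ i hi).1]; ring
  · refine natDegree_sum_le_of_forall_le _ _ fun i hi => ?_
    exact (natDegree_C_mul_le _ _).trans (hQ i hi).2

/-- the exponents -/
def sx (N a : ℕ) : Fin 3 × Option (ℕ × ℕ) → ℕ × ℕ
  | (0, none) => (0, 0)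
  | (1, none) => (2 * (N - a) + 1, 0)
  | (2, none) => (0, 2 * (N - a) + 1)
  | (0, some I) => (2 * I.1, 1)
  | (1, some I) => (1, 2 * I.1)
  | (2, some I) => (2 * (N - I.2), 2 * I.1)

/-- the degrees of the cofactors -/
def qx (a : ℕ) : Option (ℕ × ℕ) → ℕ
  | none => 2 * a
  | some I => 2 * (I.2 - I.1)

/-- the functions -/
noncomputable def fx (N a : ℕ) (w : ℕ → F) (P : ℕ × ℕ → Finset ℕ) :
    Fin 3 × Option (ℕ × ℕ) → F[X]
  | (0, none) => ∑ i ∈ range (a + 1), C (w i) * (be i - al i)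
  | (1, none) => ∑ i ∈ range (a + 1), C (w i) * (ga N i - al (N - i))
  | (2, none) => ∑ i ∈ range (a + 1), C (w i) * (be (N - i) + ga N (N - i))
  | (0, some I) => ∑ i ∈ P I, C (w i) * al i
  | (1, some I) => ∑ i ∈ P I, C (w i) * be i
  | (2, some I) => ∑ i ∈ P I, C (w i) * ga N i

lemma fx_form (N a : ℕ) (ha : a ≤ N) (w : ℕ → F) (P : ℕ × ℕ → Finset ℕ)
    (hP : ∀ I, ∀ i ∈ P I, I.1 ≤ i ∧ i ≤ I.2) (t : Fin 3 × Option (ℕ × ℕ))
    (ht : ∀ I, t.2 = some I → I.2 ≤ N) :
    ∃ Q : F[X], fx N a w P t = ph (sx N a t) * Q ∧ Q.natDegree ≤ qx a t.2 := by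
  obtain ⟨k, x⟩ := t
  rcases x with _ | I
  · fin_cases k
    · refine sum_mult _ w _ _ _ fun i hi => ?_
      rw [mem_range] at hi
      refine ⟨be i - al i, ?_, (deg_A i).trans ?_⟩
      · simp [ph, sx]
      · simp only [qx]; omega
    · refine sum_mult _ w _ _ _ fun i hi => ?_
      rw [mem_range] at hi
      obtain ⟨Q, h1, h2⟩ := term_B (F := F) N a i (by omega) ha
      refine ⟨Q, ?_, h2⟩
      rw [h1]; simp [ph, sx]
    · refine sum_mult _ w _ _ _ fun i hi => ?_
      rw [mem_range] at hi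
      obtain ⟨Q, h1, h2⟩ := term_C (F := F) N a i (by omega) ha
      refine ⟨Q, ?_, h2⟩
      rw [h1]; simp [ph, sx]
  · have hN := ht I rfl
    fin_cases k
    · refine sum_mult _ w _ _ _ fun i hi => ?_
      have h1 := hP I i hi
      refine ⟨X ^ (2 * (i - I.1)), ?_, (natDegree_X_pow_le _).trans ?_⟩
      · have e : 2 * i = 2 * I.1 + 2 * (i - I.1) := by omega
        simp only [ph, sx, al, pow_one]
        rw [e, pow_add]; ring
      · simp only [qx]; omega
    · refine sum_mult _ w _ _ _ fun i hi => ?_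
      have h1 := hP I i hi
      refine ⟨(X + 1) ^ (2 * (i - I.1)), ?_, (X1_pow_deg _).le.trans ?_⟩
      · have e : 2 * i = 2 * I.1 + 2 * (i - I.1) := by omega
        simp only [ph, sx, be, pow_one]
        rw [e, pow_add]; ring
      · simp only [qx]; omega
    · refine sum_mult _ w _ _ _ fun i hi => ?_
      have h1 := hP I i hi
      refine ⟨X ^ (2 * (I.2 - i)) * (X + 1) ^ (2 * (i - I.1)), ?_, ?_⟩
      · have e : 2 * i = 2 * I.1 + 2 * (i - I.1) := by omega
        have e2 : 2 * (N - i) = 2 * (N - I.2) + 2 * (I.2 - i) := by omega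
        simp only [ph, sx, ga]
        rw [e2, pow_add, e, pow_add]; ring
      · rw [natDegree_mul (pow_ne_zero _ X_ne_zero) (pow_ne_zero _ X1_monic.ne_zero), natDegree_X_pow,
          X1_pow_deg]
        simp only [qx]; omega

/-- splitting of the range -/
lemma sum_split {M : Type*} [AddCommMonoid M] (N a : ℕ) (ha : 2 * a < N) (Ψ : ℕ → M) :
    ∑ i ∈ range (N + 1), Ψ i = ∑ i ∈ range (a + 1), Ψ i + ∑ i ∈ Ioo a (N - a), Ψ i +
      ∑ i ∈ range (a + 1), Ψ (N - i) := by
  classical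
  have h1 : ∑ i ∈ range (a + 1), Ψ (N - i) = ∑ i ∈ Icc (N - a) N, Ψ i := by
    refine sum_bij (fun i _ => N - i) ?_ ?_ ?_ ?_
    · intro i hi; rw [mem_range] at hi; rw [mem_Icc]; omega
    · intro i hi j hj h; rw [mem_range] at hi hj; omega
    · intro j hj; rw [mem_Icc] at hj
      exact ⟨N - j, by rw [mem_range]; omega, by omega⟩
    · intro i hi; rfl
  have d1 : Disjoint (range (a + 1)) (Ioo a (N - a)) := by
    rw [disjoint_left]; intro i h1 h2; rw [mem_range] at h1; rw [mem_Ioo] at h2; omega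
  have d2 : Disjoint (range (a + 1) ∪ Ioo a (N - a)) (Icc (N - a) N) := by
    rw [disjoint_left]; intro i h1 h2; rw [mem_union, mem_range, mem_Ioo] at h1; rw [mem_Icc] at h2; omega
  rw [h1, ← sum_union d1, ← sum_union d2]
  congr 1
  ext i
  rw [mem_union, mem_union, mem_range, mem_range, mem_Ioo, mem_Icc]
  omega

end Run7.h202.RB
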