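import Mathlib
import Pool.Agent.Run7.h202.RB.Pieces
import Pool.Agent.TH10.RP.JA
import Pool.Agent.Run7.h263.RI.Char

/-!
# Regular pairs are spread out (helper202)
-/

set_option autoImplicit false

namespace Run7.h202.RB

open Polynomial Finset Pool.Agent.TH350.WZ Pool.Agent.TH350.SumReg Pool.Agent.H332R2

variable {p : ℕ} [Fact p.Prime]

lemma ww_symm (N i : ℕ) (hi : i ≤ N) : ww p N (N - i) = ww p N i := by
  unfold ww
  rw [show N - (N - i) = i by omega]
  ring

/-- The three coefficient functions of a combination of the pieces. -/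
noncomputable def cf (N a : ℕ) (w : ℕ → ZMod p) (φ : ℕ → ℕ × ℕ) (G : Fin 3 × Option (ℕ × ℕ) → ZMod p)
    (k : Fin 3) (i : ℕ) : ZMod p :=
  if i ≤ a then (match k with
    | 0 => - G (0, none) * w i
    | 1 => G (0, none) * w i
    | 2 => G (1, none) * w i)
  else if N - a ≤ i then (match k with
    | 0 => - G (1, none) * w i
    | 1 => G (2, none) * w i
    | 2 => G (2, none) * w i)
  else G (k, some (φ i)) * w i

lemma linear_form (N a : ℕ) (ha : 2 * a < N) (w : ℕ → ZMod p) (hw : ∀ i ≤ N, w (N - i) = w i)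
    (E : Finset ℕ) (hE : ∀ i, i ∈ E ↔ i ∈ Ioo a (N - a) ∧ w i ≠ 0) (φ : ℕ → ℕ × ℕ)
    (J : Finset (ℕ × ℕ)) (hJ : ∀ i ∈ E, φ i ∈ J) (G : Fin 3 × Option (ℕ × ℕ) → ZMod p) :
    ∑ k : Fin 3, C (G (k, none)) * fx N a w (fun I => E.filter (fun i => φ i = I)) (k, none) +
      ∑ I ∈ J, ∑ k : Fin 3, C (G (k, some I)) * fx N a w (fun I => E.filter (fun i => φ i = I)) (k, some I)
    = ∑ i ∈ range (N + 1), (C (cf N a w φ G 0 i) * al i + C (cf N a w φ G 1 i) * be i +
        C (cf N a w φ G 2 i) * ga N i) := by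
  classical
  rw [sum_split N a ha]
  have h1 : ∑ i ∈ range (a + 1), (C (cf N a w φ G 0 i) * al i + C (cf N a w φ G 1 i) * be i +
        C (cf N a w φ G 2 i) * ga N i) + ∑ i ∈ range (a + 1), (C (cf N a w φ G 0 (N - i)) * al (N - i) +
        C (cf N a w φ G 1 (N - i)) * be (N - i) + C (cf N a w φ G 2 (N - i)) * ga N (N - i)) =
      ∑ k : Fin 3, C (G (k, none)) * fx N a w (fun I => E.filter (fun i => φ i = I)) (k, none) := by
    rw [Fin.sum_univ_three]
    simp only [fx]
    rw [mul_sum, mul_sum, mul_sum, ← sum_add_distrib, ← sum_add_distrib, ← sum_add_distrib]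
    refine sum_congr rfl fun i hi => ?_
    rw [mem_range] at hi
    have e1 : i ≤ a := by omega
    have e2 : ¬ (N - i ≤ a) := by omega
    have e3 : N - a ≤ N - i := by omega
    unfold cf
    simp only [if_pos e1, if_neg e2, if_pos e3, hw i (by omega)]
    simp only [map_mul, map_neg]
    ring
  have h2 : ∑ i ∈ Ioo a (N - a), (C (cf N a w φ G 0 i) * al i + C (cf N a w φ G 1 i) * be i +
        C (cf N a w φ G 2 i) * ga N i) =
      ∑ I ∈ J, ∑ k : Fin 3, C (G (k, some I)) *
        fx N a w (fun I => E.filter (fun i => φ i = I)) (k, some I) := by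
    have h3 : ∑ i ∈ Ioo a (N - a), (C (cf N a w φ G 0 i) * al i + C (cf N a w φ G 1 i) * be i +
        C (cf N a w φ G 2 i) * ga N i) = ∑ i ∈ E, (C (cf N a w φ G 0 i) * al i +
        C (cf N a w φ G 1 i) * be i + C (cf N a w φ G 2 i) * ga N i) := by
      symm
      refine sum_subset (fun i hi => ((hE i).1 hi).1) ?_
      intro i hi hi'
      have hw0 : w i = 0 := by
        by_contra h
        exact hi' ((hE i).2 ⟨hi, h⟩)
      have : ∀ k, cf N a w φ G k i = 0 := by
        intro k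
        unfold cf
        rw [hw0]
        fin_cases k <;> simp
      rw [this, this, this]; simp
    rw [h3, ← sum_fiberwise_of_maps_to (g := φ) hJ]
    refine sum_congr rfl fun I hI => ?_
    rw [Fin.sum_univ_three]
    simp only [fx]
    rw [mul_sum, mul_sum, mul_sum, ← sum_add_distrib, ← sum_add_distrib]
    refine sum_congr rfl fun i hi => ?_
    rw [mem_filter] at hi
    have hi2 := ((hE i).1 hi.1).1
    rw [mem_Ioo] at hi2
    have e1 : ¬ (i ≤ a) := by omega
    have e2 : ¬ (N - a ≤ i) := by omega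
    unfold cf
    simp only [if_neg e1, if_neg e2, hi.2]
    simp only [map_mul]
    ring
  rw [← h1, h2]
  ring

/-- a combination which is zero has no type missing -/
lemma types (N a : ℕ) (hN : 2 * N + 3 ≤ p) (w : ℕ → ZMod p)
    (φ : ℕ → ℕ × ℕ) (G : Fin 3 × Option (ℕ × ℕ) → ZMod p)
    (h : ∑ i ∈ range (N + 1), (C (cf N a w φ G 0 i) * al i + C (cf N a w φ G 1 i) * be i +
        C (cf N a w φ G 2 i) * ga N i) = 0)
    (k : Fin 3) (hk : ∀ i ∈ range (N + 1), cf N a w φ G k i = 0) :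
    ∀ i ∈ range (N + 1), ∀ k' : Fin 3, cf N a w φ G k' i = 0 := by
  have h0 := Pool.Agent.TH10.RP.two_types p N hN (cf N a w φ G 0) (cf N a w φ G 1) (cf N a w φ G 2)
    (fun x => by
      have h1 := congrArg (eval x) h
      rw [eval_finsetSum, eval_zero] at h1
      rw [← h1]
      refine sum_congr rfl fun i _ => ?_
      unfold al be ga
      simp only [eval_add, eval_mul, eval_C, eval_pow, eval_X, eval_one]
      ring) (by
      fin_cases k
      · exact Or.inl hk
      · exact Or.inr (Or.inl hk)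
      · exact Or.inr (Or.inr hk))
  intro i hi k'
  have h2 := h0 i hi
  fin_cases k'
  · exact h2.1
  · exact h2.2.1
  · exact h2.2.2


/-- the types of the members -/
def Ty : Fin 3 → Fin 3 × Option (ℕ × ℕ) → Prop
  | 0, t => t = (0, none) ∨ t = (1, none) ∨ ∃ I, t = (0, some I)
  | 1, t => t = (0, none) ∨ t = (2, none) ∨ ∃ I, t = (1, some I)
  | 2, t => t = (1, none) ∨ t = (2, none) ∨ ∃ I, t = (2, some I)

lemma cf_zero (N a : ℕ) (w : ℕ → ZMod p) (φ : ℕ → ℕ × ℕ) (G : Fin 3 × Option (ℕ × ℕ) → ZMod p)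
    (k : Fin 3) (hG : ∀ t, Ty k t → G t = 0) (i : ℕ) : cf N a w φ G k i = 0 := by
  unfold cf
  fin_cases k
  · have h1 : G (0, none) = 0 := hG _ (Or.inl rfl)
    have h2 : G (1, none) = 0 := hG _ (Or.inr (Or.inl rfl))
    have h3 : G (0, some (φ i)) = 0 := hG _ (Or.inr (Or.inr ⟨_, rfl⟩))
    simp [h1, h2, h3]
  · have h1 : G (0, none) = 0 := hG _ (Or.inl rfl)
    have h2 : G (2, none) = 0 := hG _ (Or.inr (Or.inl rfl))
    have h3 : G (1, some (φ i)) = 0 := hG _ (Or.inr (Or.inr ⟨_, rfl⟩))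
    simp [h1, h2, h3]
  · have h1 : G (1, none) = 0 := hG _ (Or.inl rfl)
    have h2 : G (2, none) = 0 := hG _ (Or.inr (Or.inl rfl))
    have h3 : G (2, some (φ i)) = 0 := hG _ (Or.inr (Or.inr ⟨_, rfl⟩))
    simp [h1, h2, h3]

/-- the arithmetic at the end -/
lemma final_arith (N a n Λ b M S : ℕ) (β γ δ : ℕ) (hM : M ≤ b + 3 * n) (hS : S ≤ 2 * a * b + 6 * Λ)
    (h : 4 * N + β ≤ γ + δ + 2 * S + (M - 1) * (M - 2))
    (hb : (b = 3 ∧ β = 2 ∧ γ = 0 ∧ δ = 0) ∨ (b = 2 ∧ β = 2 ∧ γ = 0 ∧ δ = 0) ∨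
      (b = 1 ∧ γ + δ ≤ β) ∨ (b = 0 ∧ γ + δ ≤ 4 ∧ 1 ≤ n)) :
    4 * (N - 3 * a) ≤ 12 * Λ + 9 * (n * (n + 1)) := by
  have h1 : (M - 1) * (M - 2) ≤ (b + 3 * n - 1) * (b + 3 * n - 2) :=
    Nat.mul_le_mul (by omega) (by omega)
  rcases hb with ⟨rfl, rfl, rfl, rfl⟩ | ⟨rfl, rfl, rfl, rfl⟩ | ⟨rfl, h2⟩ | ⟨rfl, h2, h3⟩
  · have e1 : (3 + 3 * n - 1) * (3 + 3 * n - 2) = 9 * (n * (n + 1)) + 2 := by
      rw [show 3 + 3 * n - 1 = 3 * n + 2 by omega, show 3 + 3 * n - 2 = 3 * n + 1 by omega]; ring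
    rw [e1] at h1
    omega
  · have e1 : (2 + 3 * n - 1) * (2 + 3 * n - 2) ≤ 9 * (n * (n + 1)) := by
      rw [show 2 + 3 * n - 1 = 3 * n + 1 by omega, show 2 + 3 * n - 2 = 3 * n by omega]; nlinarith
    have : 2 * a * 2 = 4 * a := by ring
    omega
  · have e1 : (1 + 3 * n - 1) * (1 + 3 * n - 2) ≤ 9 * (n * (n + 1)) := by
      have h5 : (1 + 3 * n - 1) * (1 + 3 * n - 2) ≤ (3 * n) * (3 * n) :=
        Nat.mul_le_mul (by omega) (by omega)
      nlinarith
    have : 2 * a * 1 = 2 * a := by ring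
    omega
  · have e1 : (0 + 3 * n - 1) * (0 + 3 * n - 2) + 4 ≤ 9 * (n * (n + 1)) := by
      obtain ⟨m, rfl⟩ : ∃ m, n = m + 1 := ⟨n - 1, by omega⟩
      rw [show 0 + 3 * (m + 1) - 1 = 3 * m + 2 by omega, show 0 + 3 * (m + 1) - 2 = 3 * m + 1 by omega]
      nlinarith
    have : 2 * a * 0 = 0 := by ring
    omega

/-- Regular pairs are spread out. -/
theorem core (N : ℕ) (hN2 : 2 ≤ N) (hNp : 2 * N + 3 ≤ p) (a : ℕ) (ha : 3 * a < N)
    (J : Finset (ℕ × ℕ)) (hJN : ∀ I ∈ J, I.2 ≤ N)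
    (hcov : ∀ i, a < i → i + a < N → ww p N i ≠ 0 → ∃ I ∈ J, I.1 ≤ i ∧ i ≤ I.2) :
    4 * (N - 3 * a) ≤ 12 * ∑ I ∈ J, (I.2 - I.1) + 9 * (J.card * (J.card + 1)) := by
  classical
  set w : ℕ → ZMod p := ww p N with hw
  have hws : ∀ i ≤ N, w (N - i) = w i := fun i hi => ww_symm N i hi
  set E := (Ioo a (N - a)).filter (fun i => w i ≠ 0) with hE
  have hEmem : ∀ i, i ∈ E ↔ i ∈ Ioo a (N - a) ∧ w i ≠ 0 := fun i => by rw [hE, mem_filter]
  have hφ' : ∀ i, ∃ I : ℕ × ℕ, i ∈ E → (I ∈ J ∧ I.1 ≤ i ∧ i ≤ I.2) := by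
    intro i
    by_cases hi : i ∈ E
    · have h1 := (hEmem i).1 hi
      rw [mem_Ioo] at h1
      obtain ⟨I, hI, h2, h3⟩ := hcov i h1.1.1 (by omega) h1.2
      exact ⟨I, fun _ => ⟨hI, h2, h3⟩⟩
    · exact ⟨(0, 0), fun h => absurd h hi⟩
  choose φ hφ using hφ'
  set J' := E.image φ with hJ'
  have hJ'J : J' ⊆ J := by
    intro I hI
    rw [hJ', mem_image] at hI
    obtain ⟨i, hi, rfl⟩ := hI
    exact (hφ i hi).1
  have hJc : J'.card ≤ J.card := card_le_card hJ'J
  have hJs : ∑ I ∈ J', (I.2 - I.1) ≤ ∑ I ∈ J, (I.2 - I.1) :=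
    sum_le_sum_of_subset_of_nonneg hJ'J fun _ _ _ => Nat.zero_le _
  suffices h : 4 * (N - 3 * a) ≤ 12 * ∑ I ∈ J', (I.2 - I.1) + 9 * (J'.card * (J'.card + 1)) by
    refine h.trans ?_
    have := Nat.mul_le_mul hJc (Nat.succ_le_succ hJc)
    simp only [Nat.succ_eq_add_one] at this
    omega
  set P : ℕ × ℕ → Finset ℕ := fun I => E.filter (fun i => φ i = I) with hP
  have hPm : ∀ I, ∀ i ∈ P I, I.1 ≤ i ∧ i ≤ I.2 := by
    intro I i hi
    rw [hP, mem_filter] at hi
    have := hφ i hi.1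
    rw [hi.2] at this
    exact this.2
  set O : Finset (Option (ℕ × ℕ)) := (if ∃ i ≤ a, w i ≠ 0 then {none} else ∅) ∪ J'.image some with hO
  set T : Finset (Fin 3 × Option (ℕ × ℕ)) := univ ×ˢ O with hT
  have hOn : none ∈ O ↔ ∃ i ≤ a, w i ≠ 0 := by
    rw [hO, mem_union]
    constructor
    · rintro (h | h)
      · split_ifs at h with h1
        · exact h1
        · simp at h
      · simp at h
    · intro h
      rw [if_pos h]
      simp
  have hOs : ∀ I, some I ∈ O ↔ I ∈ J' := by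
    intro I
    rw [hO, mem_union]
    constructor
    · rintro (h | h)
      · split_ifs at h with h1
        · simp at h
        · simp at h
      · simpa using h
    · intro h
      exact Or.inr (mem_image_of_mem _ h)
  -- the general sum
  have hsumT : ∀ G : Fin 3 × Option (ℕ × ℕ) → ZMod p, ∑ t ∈ T, C (G t) * fx N a w P t =
      ∑ i ∈ range (N + 1), (C (cf N a w φ G 0 i) * al i + C (cf N a w φ G 1 i) * be i +
        C (cf N a w φ G 2 i) * ga N i) := by
    intro G
    rw [← linear_form N a (by omega) w hws E hEmem φ J' (fun i hi => mem_image_of_mem _ hi) G]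
    rw [hT, sum_product_right, hO, sum_union]
    · congr 1
      · split_ifs with h1
        · rw [sum_singleton]
        · rw [sum_empty]
          push Not at h1
          symm
          refine sum_eq_zero fun k _ => ?_
          have : fx N a w P (k, none) = 0 := by
            fin_cases k
            · refine sum_eq_zero fun i hi => ?_
              rw [mem_range] at hi
              rw [h1 i (by omega)]; simp
            · refine sum_eq_zero fun i hi => ?_
              rw [mem_range] at hi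
              rw [h1 i (by omega)]; simp
            · refine sum_eq_zero fun i hi => ?_
              rw [mem_range] at hi
              rw [h1 i (by omega)]; simp
          rw [this, mul_zero]
      · rw [sum_image (fun _ _ _ _ h => Option.some_injective _ h)]
    · rw [disjoint_left]
      intro x hx hx'
      rw [mem_image] at hx'
      obtain ⟨I, _, rfl⟩ := hx'
      split_ifs at hx with h1
      · simp at hx
      · simp at hx
  -- the relation
  set G0 : Fin 3 × Option (ℕ × ℕ) → ZMod p := fun t => if t.1 = 0 ∧ t.2 ≠ none then -1 else 1 with hG0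
  have hrel : ∑ t ∈ T, C (G0 t) * fx N a w P t = 0 := by
    rw [hsumT, ← identity_poly (p := p) N hN2 hNp]
    refine sum_congr rfl fun i hi => ?_
    have e0 : cf N a w φ G0 0 i = - w i := by
      unfold cf; simp [hG0]
    have e1 : cf N a w φ G0 1 i = w i := by
      unfold cf; simp [hG0]
    have e2 : cf N a w φ G0 2 i = w i := by
      unfold cf; simp [hG0]
    rw [e0, e1, e2]
    unfold al be ga
    rw [C_neg]
    ring
  have hTne : ∃ t ∈ T, G0 t ≠ 0 := by
    have hG0ne : ∀ t, G0 t ≠ 0 := by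
      intro t
      simp only [hG0]
      split_ifs <;> simp
    obtain ⟨i₀, h1, h2⟩ := Pool.Agent.Run7.h263.RI.exists_weight p hN2 hNp
    have h3 : ∃ x, x ∈ O := by
      by_cases h4 : i₀ ≤ a
      · exact ⟨none, hOn.2 ⟨i₀, h4, h2⟩⟩
      · by_cases h5 : N - a ≤ i₀
        · refine ⟨none, hOn.2 ⟨N - i₀, by omega, ?_⟩⟩
          rw [hws i₀ h1]; exact h2
        · have h6 : i₀ ∈ E := (hEmem i₀).2 ⟨by rw [mem_Ioo]; omega, h2⟩
          exact ⟨some (φ i₀), (hOs _).2 (mem_image_of_mem _ h6)⟩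
    obtain ⟨x, hx⟩ := h3
    exact ⟨(0, x), mem_product.2 ⟨mem_univ _, hx⟩, hG0ne _⟩
  obtain ⟨U, hUT, g', hUne, hg0, hsum, hind⟩ := exists_circ T (fx N a w P) G0 hrel hTne
  have hUO : ∀ t ∈ U, t.2 ∈ O := fun t ht => (mem_product.1 (hUT ht)).2
  -- all types occur
  have htype : ∀ k : Fin 3, ∃ t ∈ U, Ty k t := by
    intro k
    by_contra hcon
    push Not at hcon
    set G : Fin 3 × Option (ℕ × ℕ) → ZMod p := fun t => if t ∈ U then g' t else 0 with hG
    have h1 : ∑ t ∈ T, C (G t) * fx N a w P t = 0 := by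
      rw [← hsum]
      symm
      have : ∑ t ∈ U, C (g' t) * fx N a w P t = ∑ t ∈ U, C (G t) * fx N a w P t := by
        refine sum_congr rfl fun t ht => ?_
        simp only [hG, if_pos ht]
      rw [this]
      refine sum_subset hUT fun t _ ht => ?_
      simp only [hG, if_neg ht]
      simp
    rw [hsumT] at h1
    have h2 := types N a hNp w φ G h1 k (fun i _ => cf_zero N a w φ G k (fun t ht => by
      simp only [hG]
      rw [if_neg]
      intro h
      exact hcon t h ht) i)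
    obtain ⟨t, ht⟩ := hUne
    have hGt : G t ≠ 0 := by
      simp only [hG, if_pos ht]; exact hg0 t ht
    obtain ⟨k', x⟩ := t
    rcases x with _ | I
    · obtain ⟨i, hi, hwi⟩ := hOn.1 (hUO _ ht)
      fin_cases k'
      · have h3 := h2 i (by rw [mem_range]; omega) 1
        unfold cf at h3
        simp only [if_pos hi] at h3
        exact (mul_ne_zero hGt hwi) h3
      · have h3 := h2 i (by rw [mem_range]; omega) 2
        unfold cf at h3
        simp only [if_pos hi] at h3
        exact (mul_ne_zero hGt hwi) h3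
      · have h3 := h2 (N - i) (by rw [mem_range]; omega) 2
        unfold cf at h3
        rw [if_neg (by omega), if_pos (by omega), hws i (by omega)] at h3
        exact (mul_ne_zero hGt hwi) h3
    · have hI := (hOs I).1 (hUO _ ht)
      rw [hJ', mem_image] at hI
      obtain ⟨i, hi, hφi⟩ := hI
      have hi2 := (hEmem i).1 hi
      rw [mem_Ioo] at hi2
      have h3 := h2 i (by rw [mem_range]; omega) k'
      unfold cf at h3
      rw [if_neg (by omega), if_neg (by omega), hφi] at h3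
      exact (mul_ne_zero hGt hi2.2) h3
  -- the cofactors
  have hform : ∀ t : Fin 3 × Option (ℕ × ℕ), ∃ Q : (ZMod p)[X], t ∈ U →
      (fx N a w P t = ph (sx N a t) * Q ∧ Q.natDegree ≤ qx a t.2) := by
    intro t
    by_cases ht : t ∈ U
    · obtain ⟨Q, hQ⟩ := fx_form (F := ZMod p) N a (by omega) w P hPm t (by
        intro I hI
        have h1 := hUO t ht
        rw [hI] at h1
        exact hJN I (hJ'J ((hOs I).1 h1)))
      exact ⟨Q, fun _ => hQ⟩
    · exact ⟨0, fun h => absurd h ht⟩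
  choose Q hQ using hform
  have hI2 : ∀ k I, ((k, some I) : Fin 3 × Option (ℕ × ℕ)) ∈ U → I.1 ≤ I.2 ∧ I.2 ≤ N := by
    intro k I h
    have h1 := (hOs I).1 (hUO _ h)
    refine ⟨?_, hJN I (hJ'J h1)⟩
    rw [hJ', mem_image] at h1
    obtain ⟨i, hi, rfl⟩ := h1
    have := hφ i hi
    omega
  have hUp : ∀ t ∈ U, (sx N a t).1 + (sx N a t).2 + qx a t.2 < p := by
    rintro ⟨k, x⟩ ht
    rcases x with _ | I
    · fin_cases k <;> simp [sx, qx] <;> omega
    · have := hI2 k I ht
      fin_cases k <;> simp [sx, qx] <;> omega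
  have hsum' : ∑ t ∈ U, C (g' t) * (ph (sx N a t) * Q t) = 0 := by
    rw [← hsum]
    exact sum_congr rfl fun t ht => by rw [(hQ t ht).1]
  have hind' : ∀ t₀ ∈ U, ∀ f : Fin 3 × Option (ℕ × ℕ) → ZMod p,
      ∑ t ∈ U.erase t₀, C (f t) * (ph (sx N a t) * Q t) = 0 → ∀ t ∈ U.erase t₀, f t = 0 := by
    intro t₀ ht₀ f hf
    refine hind t₀ ht₀ f ?_
    rw [← hf]
    exact sum_congr rfl fun t ht => by rw [(hQ t (mem_of_mem_erase ht)).1]
  have hineq := fun t₀ t₁ t₂ h₀ h₁ h₂ => circ_ineq p U (sx N a) Q (fun t => qx a t.2)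
    (fun t ht => (hQ t ht).2) hUp g' hg0 hsum' hind' t₀ t₁ t₂ h₀ h₁ h₂
  -- the size of the cofactors
  set Ub := U.filter (fun t => t.2 = none) with hUb
  set Ui := U.filter (fun t => ¬ t.2 = none) with hUi
  have hUc : Ub.card + Ui.card = U.card := card_filter_add_card_filter_not _
  have hUisub : Ui ⊆ univ ×ˢ (J'.image some) := by
    intro t ht
    rw [hUi, mem_filter] at ht
    rw [mem_product]
    refine ⟨mem_univ _, ?_⟩
    have h1 := hUO t ht.1
    obtain ⟨k, x⟩ := t
    rcases x with _ | I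
    · exact absurd rfl ht.2
    · exact mem_image_of_mem _ ((hOs I).1 h1)
  have hUic : Ui.card ≤ 3 * J'.card := by
    have h1 := card_le_card hUisub
    rw [card_product, card_image_of_injective _ (Option.some_injective _)] at h1
    simpa using h1
  have hUis : ∑ t ∈ Ui, qx a t.2 ≤ 6 * ∑ I ∈ J', (I.2 - I.1) := by
    have h1 : ∑ t ∈ Ui, qx a t.2 ≤ ∑ t ∈ (univ : Finset (Fin 3)) ×ˢ (J'.image some), qx a t.2 :=
      sum_le_sum_of_subset_of_nonneg hUisub fun _ _ _ => Nat.zero_le _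
    refine h1.trans (le_of_eq ?_)
    rw [sum_product]
    simp only
    rw [Fin.sum_univ_three, sum_image (fun _ _ _ _ h => Option.some_injective _ h)]
    simp only [qx]
    rw [← mul_sum]; ring
  have hUbs : ∑ t ∈ Ub, qx a t.2 = 2 * a * Ub.card := by
    rw [sum_congr rfl (g := fun _ => 2 * a)]
    · rw [sum_const, smul_eq_mul]; ring
    · intro t ht
      rw [hUb, mem_filter] at ht
      rw [ht.2]; rfl
  have hUs : ∑ t ∈ Ub, qx a t.2 + ∑ t ∈ Ui, qx a t.2 = ∑ t ∈ U, qx a t.2 :=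
    sum_filter_add_sum_filter_not _ _ _
  have herase : ∀ t ∈ U, qx a t.2 + ∑ t ∈ U.erase t, qx a t.2 = ∑ t ∈ U, qx a t.2 :=
    fun t ht => add_sum_erase U (fun t => qx a t.2) ht
  -- choice of the members
  obtain ⟨t₀, ht₀, hty₀⟩ := htype 1
  obtain ⟨t₁, ht₁, hty₁⟩ := htype 0
  obtain ⟨t₂, ht₂, hty₂⟩ := htype 2
  have hnJ : Ub.card = 0 → 1 ≤ J'.card := by
    intro h
    obtain ⟨t, ht⟩ := hUne
    have : t ∈ Ui := by
      rw [hUi, mem_filter]
      refine ⟨ht, fun h' => ?_⟩
      rw [card_eq_zero] at h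
      have : t ∈ Ub := by rw [hUb, mem_filter]; exact ⟨ht, h'⟩
      rw [h] at this
      simp at this
    have := card_pos.2 ⟨t, this⟩
    omega
  have hS : ∀ b, Ub.card ≤ b → ∑ t ∈ U, qx a t.2 ≤ 2 * a * b + 6 * ∑ I ∈ J', (I.2 - I.1) := by
    intro b hb
    have := Nat.mul_le_mul_left (2 * a) hb
    omega
  have hUbmem : ∀ t ∈ Ub, (t = (0, none) ∨ t = (1, none) ∨ t = (2, none)) ∧ t ∈ U := by
    intro t ht
    rw [hUb, mem_filter] at ht
    refine ⟨?_, ht.1⟩
    obtain ⟨k, x⟩ := t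
    have hx : x = none := ht.2
    subst hx
    fin_cases k <;> simp
  have hfin : ∀ b β γ δ : ℕ, Ub.card ≤ b →
      4 * N + β ≤ γ + δ + 2 * ∑ t ∈ U, qx a t.2 + (U.card - 1) * (U.card - 2) →
      ((b = 3 ∧ β = 2 ∧ γ = 0 ∧ δ = 0) ∨ (b = 2 ∧ β = 2 ∧ γ = 0 ∧ δ = 0) ∨
      (b = 1 ∧ γ + δ ≤ β) ∨ (b = 0 ∧ γ + δ ≤ 4 ∧ 1 ≤ J'.card)) →
      4 * (N - 3 * a) ≤ 12 * ∑ I ∈ J', (I.2 - I.1) + 9 * (J'.card * (J'.card + 1)) := by
    intro b β γ δ h1 h2 h3
    exact final_arith N a J'.card (∑ I ∈ J', (I.2 - I.1)) b U.card (∑ t ∈ U, qx a t.2) β γ δ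
      (by omega) (hS b h1) h2 h3
  have hcard : ∀ V : Finset (Fin 3 × Option (ℕ × ℕ)), (∀ t ∈ Ub, t ∈ V) → Ub.card ≤ V.card :=
    fun V h => card_le_card h
  -- the members of the third type
  have g2 : ∀ t₀ ∈ U, ∀ t₁ ∈ U, ∀ t₂ ∈ U, (t₂ = (1, none) ∨ t₂ = (2, none)) →
      4 * N + 2 ≤ 2 * ((sx N a t₀).1 + (sx N a t₁).2) + 2 * ∑ t ∈ U, qx a t.2 +
        (U.card - 1) * (U.card - 2) := by
    intro t₀ h0 t₁ h1 t₂ h2 h3
    have h4 := hineq t₀ t₁ t₂ h0 h1 h2
    have h5 := herase t₂ h2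
    rcases h3 with rfl | rfl
    · have e : (sx N a (1, none)).1 + (sx N a (1, none)).2 = 2 * (N - a) + 1 := rfl
      have e' : qx a ((1, none) : Fin 3 × Option (ℕ × ℕ)).2 = 2 * a := rfl
      rw [e] at h4
      rw [e'] at h5
      omega
    · have e : (sx N a (2, none)).1 + (sx N a (2, none)).2 = 0 + (2 * (N - a) + 1) := rfl
      have e' : qx a ((2, none) : Fin 3 × Option (ℕ × ℕ)).2 = 2 * a := rfl
      rw [e] at h4
      rw [e'] at h5
      omega
  have g3 : ∀ t₀ ∈ U, ∀ t₁ ∈ U, ∀ t₂ ∈ U, (∃ I, t₂ = (2, some I)) →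
      4 * N ≤ 2 * ((sx N a t₀).1 + (sx N a t₁).2) + 2 * ∑ t ∈ U, qx a t.2 +
        (U.card - 1) * (U.card - 2) := by
    rintro t₀ h0 t₁ h1 t₂ h2 ⟨I, rfl⟩
    have h4 := hineq t₀ t₁ _ h0 h1 h2
    have h5 := herase _ h2
    have h6 := hI2 _ I h2
    have e : (sx N a (2, some I)).1 + (sx N a (2, some I)).2 = 2 * (N - I.2) + 2 * I.1 := rfl
    have e' : qx a ((2, some I) : Fin 3 × Option (ℕ × ℕ)).2 = 2 * (I.2 - I.1) := rfl
    rw [e] at h4
    rw [e'] at h5
    omega
  have sA : sx N a (0, none) = (0, 0) := rfl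
  have sB : sx N a (1, none) = (2 * (N - a) + 1, 0) := rfl
  have sC : sx N a (2, none) = (0, 2 * (N - a) + 1) := rfl
  have s0 : ∀ I, sx N a (0, some I) = (2 * I.1, 1) := fun _ => rfl
  have s1 : ∀ I, sx N a (1, some I) = (1, 2 * I.1) := fun _ => rfl
  by_cases hA : ((0, none) : Fin 3 × Option (ℕ × ℕ)) ∈ U
  · by_cases hB : ((1, none) : Fin 3 × Option (ℕ × ℕ)) ∈ U
    · have h := g2 _ hA _ hA _ hB (Or.inl rfl)
      rw [sA] at h
      by_cases hC : ((2, none) : Fin 3 × Option (ℕ × ℕ)) ∈ U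
      · refine hfin 3 2 0 0 ?_ (by simpa using h) (Or.inl ⟨rfl, rfl, rfl, rfl⟩)
        refine (hcard {(0, none), (1, none), (2, none)} fun t ht => ?_).trans card_le_three
        simpa using (hUbmem t ht).1
      · refine hfin 2 2 0 0 ?_ (by simpa using h) (Or.inr (Or.inl ⟨rfl, rfl, rfl, rfl⟩))
        refine (hcard {(0, none), (1, none)} fun t ht => ?_).trans card_le_two
        obtain ⟨h1, h2⟩ := hUbmem t ht
        rcases h1 with rfl | rfl | rfl
        · simp
        · simp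
        · exact absurd h2 hC
    · by_cases hC : ((2, none) : Fin 3 × Option (ℕ × ℕ)) ∈ U
      · have h := g2 _ hA _ hA _ hC (Or.inr rfl)
        rw [sA] at h
        refine hfin 2 2 0 0 ?_ (by simpa using h) (Or.inr (Or.inl ⟨rfl, rfl, rfl, rfl⟩))
        refine (hcard {(0, none), (2, none)} fun t ht => ?_).trans card_le_two
        obtain ⟨h1, h2⟩ := hUbmem t ht
        rcases h1 with rfl | rfl | rfl
        · simp
        · exact absurd h2 hB
        · simp
      · have h3 : ∃ I, t₂ = (2, some I) := by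
          rcases hty₂ with rfl | rfl | h
          · exact absurd ht₂ hB
          · exact absurd ht₂ hC
          · exact h
        have h := g3 _ hA _ hA _ ht₂ h3
        rw [sA] at h
        refine hfin 1 0 0 0 ?_ (by simpa using h) (Or.inr (Or.inr (Or.inl ⟨rfl, le_rfl⟩)))
        refine (hcard {(0, none)} fun t ht => ?_).trans (card_singleton _).le
        obtain ⟨h1, h2⟩ := hUbmem t ht
        rcases h1 with rfl | rfl | rfl
        · simp
        · exact absurd h2 hB
        · exact absurd h2 hC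
  · by_cases hB : ((1, none) : Fin 3 × Option (ℕ × ℕ)) ∈ U
    · by_cases hC : ((2, none) : Fin 3 × Option (ℕ × ℕ)) ∈ U
      · have h := g2 _ hC _ hB _ hB (Or.inl rfl)
        rw [sC, sB] at h
        refine hfin 2 2 0 0 ?_ (by simpa using h) (Or.inr (Or.inl ⟨rfl, rfl, rfl, rfl⟩))
        refine (hcard {(1, none), (2, none)} fun t ht => ?_).trans card_le_two
        obtain ⟨h1, h2⟩ := hUbmem t ht
        rcases h1 with rfl | rfl | rfl
        · exact absurd h2 hA
        · simp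
        · simp
      · obtain ⟨I, rfl⟩ : ∃ I, t₀ = (1, some I) := by
          rcases hty₀ with rfl | rfl | h
          · exact absurd ht₀ hA
          · exact absurd ht₀ hC
          · exact h
        have h := g2 _ ht₀ _ hB _ hB (Or.inl rfl)
        rw [s1, sB] at h
        refine hfin 1 2 2 0 ?_ (by simpa using h) (Or.inr (Or.inr (Or.inl ⟨rfl, le_rfl⟩)))
        refine (hcard {(1, none)} fun t ht => ?_).trans (card_singleton _).le
        obtain ⟨h1, h2⟩ := hUbmem t ht
        rcases h1 with rfl | rfl | rfl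
        · exact absurd h2 hA
        · simp
        · exact absurd h2 hC
    · by_cases hC : ((2, none) : Fin 3 × Option (ℕ × ℕ)) ∈ U
      · obtain ⟨I, rfl⟩ : ∃ I, t₁ = (0, some I) := by
          rcases hty₁ with rfl | rfl | h
          · exact absurd ht₁ hA
          · exact absurd ht₁ hB
          · exact h
        have h := g2 _ hC _ ht₁ _ hC (Or.inr rfl)
        rw [sC, s0] at h
        refine hfin 1 2 0 2 ?_ (by simpa using h) (Or.inr (Or.inr (Or.inl ⟨rfl, le_rfl⟩)))
        refine (hcard {(2, none)} fun t ht => ?_).trans (card_singleton _).le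
        obtain ⟨h1, h2⟩ := hUbmem t ht
        rcases h1 with rfl | rfl | rfl
        · exact absurd h2 hA
        · exact absurd h2 hB
        · simp
      · have h0 : Ub.card = 0 := by
          rw [card_eq_zero, eq_empty_iff_forall_notMem]
          intro t ht
          obtain ⟨h1, h2⟩ := hUbmem t ht
          rcases h1 with rfl | rfl | rfl
          · exact hA h2
          · exact hB h2
          · exact hC h2
        obtain ⟨I, rfl⟩ : ∃ I, t₀ = (1, some I) := by
          rcases hty₀ with rfl | rfl | h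
          · exact absurd ht₀ hA
          · exact absurd ht₀ hC
          · exact h
        obtain ⟨I', rfl⟩ : ∃ I, t₁ = (0, some I) := by
          rcases hty₁ with rfl | rfl | h
          · exact absurd ht₁ hA
          · exact absurd ht₁ hB
          · exact h
        have h3 : ∃ I, t₂ = (2, some I) := by
          rcases hty₂ with rfl | rfl | h
          · exact absurd ht₂ hB
          · exact absurd ht₂ hC
          · exact h
        have h := g3 _ ht₀ _ ht₁ _ ht₂ h3
        rw [s1, s0] at h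
        refine hfin 0 0 2 2 h0.le ?_ (Or.inr (Or.inr (Or.inr ⟨rfl, le_rfl, hnJ h0⟩)))
        simpa using h

end Run7.h202.RB
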